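import Pool.Agent.L7h43.QU.Stm
import Pool.Agent.TH603.Sur.Flat

/-!
# Project QU, part ONE (helper23): one sector
-/

namespace Pool.Agent.L7h23.QU

open Pool.Agent.L7h43.QU
open Pool.Agent.TH176.Nag (Emp)
open Pool.Agent.TH603.Sur (Sur TZ)

/-- the numbers in the rows -/
theorem hrow (d : ℕ) (j : ℤ) (h1 : 0 ≤ j) (h2 : 5 * j ≤ d) :
    ∃ e : ℕ, (e : ℤ) = d - 5 * j ∧ d - 5 * j.toNat = e ∧ (e : ℝ) = d - 5 * j := by
  refine ⟨d - 5 * j.toNat, by omega, rfl, ?_⟩
  have h3 : ((d - 5 * j.toNat : ℕ) : ℤ) = d - 5 * j := by omega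
  exact_mod_cast h3

theorem hh3 (e : ℕ) (he : 3 ≤ e) : ((hh e : ℕ) : ℝ) = 5 * e - 5 := by
  have h1 : hh e = 5 * e - 5 := by
    unfold hh
    rw [if_neg (by omega), if_neg (by omega), if_neg (by omega)]
  rw [h1, Nat.cast_sub (by omega)]
  push_cast
  ring

theorem hh1 : ((hh 1 : ℕ) : ℝ) = 3 := by
  unfold hh
  norm_num

theorem hh2 : ((hh 2 : ℕ) : ℝ) = 6 := by
  unfold hh
  norm_num

theorem s_ONE : S_ONE := by
  intro K d _ hK1 hK2
  refine ⟨?_, ?_, ?_⟩
  · intro hd ι w h
    refine h.comap 1 (-10) 0 1 (2 * d - 2) 0 (by norm_num) ?_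
    rintro ⟨i, j⟩ ⟨g1, g2, g3, g4⟩
    simp only at g1 g2 g3 g4
    obtain ⟨e, he1, he2, he3⟩ := hrow d j g1 g2
    rw [he2] at g3 g4
    have he0 : 3 ≤ e := by omega
    rw [hh3 e he0] at g3 g4
    refine ⟨by simp only; omega, ?_, ?_⟩
    · simp only
      push_cast
      rw [he3] at g3
      linarith
    · simp only
      push_cast
      rw [he3] at g4
      linarith
  · intro hd ι w h
    refine h.comap 1 (-10) 0 1 (2 * d - 2) 0 (by norm_num) ?_
    rintro ⟨i, j⟩ ⟨g1, g2, g3, g4⟩
    simp only at g1 g2 g3 g4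
    obtain ⟨e, he1, he2, he3⟩ := hrow d j g1 g2
    rw [he2] at g3 g4
    rcases (by omega : e = 2 ∨ 3 ≤ e) with h5 | h5
    · subst h5
      rw [hh2] at g3 g4
      push_cast at he3
      have i1 : (-3 : ℝ) < i := by linarith
      have i2 : (i : ℝ) < 4 := by linarith
      have i3 : -3 < i := by exact_mod_cast i1
      have i4 : i < 4 := by exact_mod_cast i2
      have hx : (1 * i + -10 * j + (2 * d - 2) : ℤ) = i + 2 := by
        push_cast at he1
        linarith
      have h8 : ((d : ℝ) - 1) / 5 - (0 * (i : ℝ) + 1 * (j : ℝ) + 0) = 1 / 5 := by linarith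
      simp only
      rw [hx]
      rcases (by omega : i = -2 ∨ -1 ≤ i) with h7 | h7
      · right
        refine ⟨by simp only; omega, by simp only; omega, by simp only; push_cast at he1; omega⟩
      · left
        have h9 : (-1 : ℝ) ≤ i := by exact_mod_cast h7
        have h10 : (i : ℝ) ≤ 3 := by exact_mod_cast (by omega : i ≤ 3)
        refine ⟨by simp only; omega, ?_, ?_⟩
        · simp only
          push_cast
          rw [h8]
          linarith
        · simp only
          push_cast
          rw [h8]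
          linarith
    · left
      rw [hh3 e h5] at g3 g4
      refine ⟨by simp only; omega, ?_, ?_⟩
      · simp only
        push_cast
        rw [he3] at g3
        linarith
      · simp only
        push_cast
        rw [he3] at g4
        linarith
  · intro ι _ w h
    refine h.comap 1 (-10) 0 1 (2 * d - 2) 0 (by norm_num) ?_
    rintro ⟨x, j⟩ ⟨g1, g2, g3⟩
    simp only at g1 g2 g3
    have hη : (0 : ℝ) ≤ ((d : ℝ) - 1) / 5 - j := by
      by_contra hc
      push Not at hc
      nlinarith
    have hj : 5 * j + 1 ≤ d := by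
      have h1 : 5 * (j : ℝ) + 1 ≤ d := by linarith
      exact_mod_cast h1
    obtain ⟨e, he1, he2, he3⟩ := hrow d j g1 (by omega)
    refine ⟨(x - (2 * d - 2) + 10 * j, j), ⟨g1, by simp only; omega, ?_, ?_⟩, ?_⟩
    · simp only
      rw [he2]
      rcases (by omega : e = 1 ∨ e = 2 ∨ 3 ≤ e) with h5 | h5 | h5
      · subst h5
        rw [hh1]
        push_cast at he3 ⊢
        have x1 : ((d : ℝ) - 1) / 5 - j = 0 := by linarith
        rw [x1] at g2
        linarith
      · subst h5
        rw [hh2]
        push_cast at he3 ⊢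
        have x1 : ((d : ℝ) - 1) / 5 - j = 1 / 5 := by linarith
        rw [x1] at g2
        linarith
      · rw [hh3 e h5, he3]
        push_cast
        linarith
    · simp only
      rw [he2]
      rcases (by omega : e = 1 ∨ e = 2 ∨ 3 ≤ e) with h5 | h5 | h5
      · subst h5
        rw [hh1]
        push_cast at he3 ⊢
        have x1 : ((d : ℝ) - 1) / 5 - j = 0 := by linarith
        rw [x1] at g3
        linarith
      · subst h5
        rw [hh2]
        push_cast at he3 ⊢
        have x1 : ((d : ℝ) - 1) / 5 - j = 1 / 5 := by linarith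
        rw [x1] at g3
        linarith
      · rw [hh3 e h5, he3]
        push_cast
        linarith
    · ext
      · simp only; ring
      · simp only; ring

end Pool.Agent.L7h23.QU
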