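import Pool.Agent.L7h43.QU.Stm
import Pool.Agent.L7h23.NQ.Emp

/-!
# Project QU, part EMP (helper23): the key lemma for the tube around the quintic
-/

namespace Pool.Agent.L7h23.QU

open MvPolynomial Pool.Agent.TH603.EL Pool.Agent.L7h43.QU
open Pool.Agent.TH176.Nag (Emp)
open Pool.Agent.TH603.Sur (TZ)
open Pool.Agent.L7h52.NQ (vec vec_zero vec_one vec_two mI th cst S_THETA)
open Pool.Agent.L7h23.NQ (th_coeff ne_of_coeff coeff_lin)

variable {F : Type} [Field F]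

theorem dA_eq {R : Type} [CommRing R] (x w : R) : dA x w = x + x * x * (-3 + 3 * x - x ^ 2) +
    w * ((1 - x) ^ 3 * (x * (-7 + 19 * w - 25 * w ^ 2 + 16 * w ^ 3 - 4 * w ^ 4) +
      (1 - w) ^ 3 * (2 - x) ^ 2)) := by
  unfold dA
  ring

theorem dB_eq {R : Type} [CommRing R] (x w : R) : dB x w =
    32 * x + x * x * (-52 + 28 * x - 5 * x ^ 2) +
    w * ((2 - x) ^ 2 * (x * (8 - 5 * x) * (-7 + 19 * w - 25 * w ^ 2 + 16 * w ^ 3 - 4 * w ^ 4) +
      (1 - 2 * w) ^ 2 * (5 - 8 * w) * (1 - x) ^ 3)) := by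
  unfold dB
  ring

theorem tubeU_ne {x y : F} [CharZero F] (hΘ : S_THETA) (hx : x ≠ 0) (hy : y ≠ 0) {τ s : ℝ}
    (h0 : 0 < τ) (h1 : τ < 1 / 2) (hs : 1 ≤ s) (v : MvPolynomial (Fin 2) F) (l : ZMod 3) :
    evp hx hy (tubeU τ s v l) ≠ 0 := by
  have hl : l = 0 ∨ l = 1 ∨ l = 2 := by
    revert l; decide
  rcases hl with rfl | rfl | rfl
  · refine ne_of_coeff hx hy (c := (4 : F)) (by norm_num) (i := 0) (j := 0) (a := 0) ?_
    have h := th_coeff hΘ h0 h1 hs (pu v 0) 0 (by norm_num)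
    have h2 : (pu v 0).coeff (Finsupp.single 0 0) = (4 : F) := by
      rw [Finsupp.single_zero, ← constantCoeff_eq, pu, vec_zero, dD]
      simp
      rw [show (constantCoeff (2 : MvPolynomial (Fin 2) F)) = 2 from map_ofNat _ 2]
      norm_num
    rw [h2] at h
    simp only [Nat.cast_zero, zero_mul] at h
    exact h
  · refine ne_of_coeff hx hy (c := (1 : F)) one_ne_zero (i := 1) (j := 0) (a := τ) ?_
    have h := th_coeff hΘ h0 h1 hs (pu v 1) 1 le_rfl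
    have h2 : (pu v 1).coeff (Finsupp.single 0 1) = (1 : F) := by
      rw [pu, vec_one, dA_eq, mul_assoc (X 1) v]
      have := coeff_lin (F := F) (-3 + 3 * X 0 - X 0 ^ 2) (v * ((1 - X 0) ^ 3 *
        (X 0 * (-7 + 19 * (X 1 * v) - 25 * (X 1 * v) ^ 2 + 16 * (X 1 * v) ^ 3 -
          4 * (X 1 * v) ^ 4) + (1 - (X 1 * v)) ^ 3 * (2 - X 0) ^ 2))) 1
      rw [C_1, one_mul] at this
      exact this
    rw [h2] at h
    simp only [Nat.cast_one, one_mul] at h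
    exact h
  · refine ne_of_coeff hx hy (c := (32 : F)) (by norm_num) (i := 1) (j := 0) (a := τ) ?_
    have h := th_coeff hΘ h0 h1 hs (pu v 2) 1 le_rfl
    have h2 : (pu v 2).coeff (Finsupp.single 0 1) = (32 : F) := by
      rw [pu, vec_two, dB_eq, mul_assoc (X 1) v]
      have := coeff_lin (F := F) (-52 + 28 * X 0 - 5 * X 0 ^ 2) (v * ((2 - X 0) ^ 2 *
        (X 0 * (8 - 5 * X 0) * (-7 + 19 * (X 1 * v) - 25 * (X 1 * v) ^ 2 + 16 * (X 1 * v) ^ 3 -
          4 * (X 1 * v) ^ 4) + (1 - 2 * (X 1 * v)) ^ 2 * (5 - 8 * (X 1 * v)) *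
            (1 - X 0) ^ 3))) 32
      rw [show (C (32 : F) : MvPolynomial (Fin 2) F) = 32 from map_ofNat C 32] at this
      exact this
    rw [h2] at h
    simp only [Nat.cast_one, one_mul] at h
    exact h

theorem s_EMP (hT : S_TUBE) (hΘ : S_THETA) (hA : S_ASM) : S_EMP := by
  intro ι w d τ h0 h1 h
  obtain ⟨F, _, _, x, y, hx, hy, hE⟩ := h
  obtain ⟨s, hs⟩ : ∃ s : ℝ, s = 5 * (d : ℝ) + 2 := ⟨_, rfl⟩
  have hd : (0 : ℝ) ≤ d := Nat.cast_nonneg d
  have hs1 : 5 * (d : ℝ) + 1 < s := by rw [hs]; linarith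
  have hs2 : 1 ≤ s := by rw [hs]; linarith
  have hmin : 0 < min τ (1 - τ) := lt_min h0 (by linarith)
  obtain ⟨n, hn⟩ := exists_nat_gt (s / min τ (1 - τ))
  rw [div_lt_iff₀ hmin] at hn
  obtain ⟨v, hv⟩ := hT F n
  have hchar : CharZero (HK F) :=
    charZero_of_injective_ringHom (f := (HahnSeries.C : F →+* HK F)) HahnSeries.C_injective
  have hU : ∀ i l, evp (hx i) (hy i) (tubeU τ s v l) ≠ 0 :=
    fun i l => tubeU_ne hΘ (hx i) (hy i) h0 h1 hs2 v l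
  refine ⟨HK F, inferInstance, hchar,
    fun i => evp (hx i) (hy i) (tubeU τ s v 1) / evp (hx i) (hy i) (tubeU τ s v 0),
    fun i => evp (hx i) (hy i) (tubeU τ s v 2) / evp (hx i) (hy i) (tubeU τ s v 0),
    fun i => div_ne_zero (hU i 1) (hU i 0), fun i => div_ne_zero (hU i 2) (hU i 0), ?_⟩
  intro f hf hLM
  by_contra hne
  have hf' : ∀ m ∈ f.support, 0 ≤ m.1 ∧ 0 ≤ m.2 ∧ m.1 + m.2 ≤ (d : ℤ) := fun m hm => hf hm
  obtain ⟨a, _, ha, hb⟩ := hA F τ s n d v (hom d f) h0 (by linarith) hs1 hn hv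
    (hom_isHomogeneous hf') (hom_ne_zero hf' hne)
  have h2 : ((ev (tubeU τ s v) (hom d f)).coeff a).coeff = 0 := by
    apply hE
    · intro m hm
      exact hb m.1 m.2 (Finsupp.mem_support_iff.1 hm)
    · intro i
      exact LM_transfer (hx i) (hy i) (hU i) hf' (hLM i) a
  apply ha
  ext m
  rw [h2]
  rfl

end Pool.Agent.L7h23.QU
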