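import Pool.Agent.L7h43.QU.Stm
import Pool.Agent.L7h23.NQ.Sur

/-!
# Project QU, part SUR (helper23): independence from emptiness, by counting
-/

namespace Pool.Agent.L7h23.QU

open Finset Pool.Agent.L7h43.QU
open Pool.Agent.TH176.Nag (Emp)
open Pool.Agent.TH603.Sur (Sur TZ TZ_finite sum_range_sub)
open Pool.Agent.L7h23.NQ (card_row card_TZ)

theorem sum_hh (d : ℕ) : ∑ j ∈ range (d / 5 + 1), hh (d - 5 * j) = (d + 2).choose 2 := by
  induction d using Nat.strong_induction_on with
  | _ d ih =>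
    rcases Nat.lt_or_ge d 5 with h | h
    · interval_cases d <;> rfl
    · obtain ⟨e, rfl⟩ : ∃ e, d = e + 5 := ⟨d - 5, by omega⟩
      have h1 : (e + 5) / 5 + 1 = (e / 5 + 1) + 1 := by omega
      rw [h1, sum_range_succ']
      have h2 : ∀ j : ℕ, e + 5 - 5 * (j + 1) = e - 5 * j := fun j => by omega
      simp only [h2]
      rw [ih e (by omega)]
      have h3 : hh (e + 5 - 5 * 0) = 5 * e + 20 := by
        unfold hh
        rw [if_neg (by omega), if_neg (by omega), if_neg (by omega)]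
        omega
      rw [h3]
      have c1 : (e + 2).choose 2 * 2 = (e + 2) * (e + 1) := by
        rw [Nat.choose_two_right, Nat.div_mul_cancel (Nat.even_mul_pred_self (e + 2)).two_dvd]
        rfl
      have c2 : (e + 5 + 2).choose 2 * 2 = (e + 5 + 2) * (e + 6) := by
        rw [Nat.choose_two_right, Nat.div_mul_cancel (Nat.even_mul_pred_self (e + 5 + 2)).two_dvd]
        rfl
      nlinarith

theorem hh_pos (e : ℕ) : 1 ≤ hh e := by
  unfold hh
  split_ifs <;> omega

theorem exists_fin {τ : ℝ} (hirr : Irrational τ) (d : ℕ) :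
    ∃ A : Finset (ℤ × ℤ), (↑A : Set (ℤ × ℤ)) = E5 τ d ∧ A.card ≤ (d + 2).choose 2 := by
  classical
  refine ⟨(range (d / 5 + 1)).biUnion fun j =>
    (Icc ⌈-(τ * hh (d - 5 * j))⌉ ⌊(1 - τ) * hh (d - 5 * j)⌋).image fun i => (i, (j : ℤ)), ?_, ?_⟩
  · ext ⟨i, j⟩
    rw [mem_coe, mem_biUnion]
    constructor
    · rintro ⟨l, hl, hi⟩
      rw [mem_image] at hi
      obtain ⟨i', hi', he⟩ := hi
      rw [Prod.mk.injEq] at he
      obtain ⟨rfl, rfl⟩ := he
      rw [mem_range] at hl
      rw [mem_Icc, Int.ceil_le, Int.le_floor] at hi'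
      refine ⟨by simp only; omega, by simp only; omega, ?_, ?_⟩
      · simp only [Int.toNat_natCast]
        exact hi'.1
      · simp only [Int.toNat_natCast]
        exact hi'.2
    · rintro ⟨g1, g2, g3, g4⟩
      simp only at g1 g2 g3 g4
      refine ⟨j.toNat, ?_, ?_⟩
      · rw [mem_range]
        omega
      · rw [mem_image]
        refine ⟨i, ?_, ?_⟩
        · rw [mem_Icc, Int.ceil_le, Int.le_floor]
          exact ⟨g3, g4⟩
        · rw [Int.toNat_of_nonneg g1]
  · refine card_biUnion_le.trans ?_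
    rw [← sum_hh d]
    refine sum_le_sum fun j _ => card_image_le.trans (card_row hirr (hh_pos _))

theorem s_SUR (hE : S_EMP) : S_SUR := by
  intro ι _ w d τ h0 h1 hirr h
  obtain ⟨A, hA, hAc⟩ := exists_fin hirr d
  rw [← hA] at h
  rw [← (TZ_finite d).coe_toFinset]
  refine Pool.Agent.TH603.Sur.Sur.transfer (hAc.trans (card_TZ d)) (fun κ v hv => ?_) h
  rw [(TZ_finite d).coe_toFinset]
  rw [hA] at hv
  exact hE κ v d τ h0 h1 hv

end Pool.Agent.L7h23.QU
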